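import Pool.Agent.W998.Route.Defs

/-! Elementary facts on runs. -/

set_option autoImplicit false

namespace Pool.Agent.W998.Route

open Finset

variable {V : Type} (G : V → V → Prop)

theorem mem_present (Q : Finset (Packet V)) (p : Packet V → ℕ) (u : V) (x : Packet V × ℕ) :
    x ∈ present G Q p u ↔
      ∃ q ∈ Q, (∃ w, q.2[p q]? = some w ∧ Relation.ReflTransGen G w u) ∧ (q, p q) = x := by
  classical
  unfold present
  simp only [Finset.mem_image, Finset.mem_filter, and_assoc]

theorem traj_of_le (P : Protocol V) (Q : Finset (Packet V)) {t τ : ℕ} (h : τ ≤ t)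
    (q : Packet V) : traj G P Q t τ q = pos G P Q τ q := by
  induction t with
  | zero =>
    obtain rfl : τ = 0 := by omega
    rfl
  | succ t ih =>
    rcases Nat.lt_or_ge τ (t + 1) with h1 | h1
    · have h2 : τ ≤ t := by omega
      simp only [traj, h2, if_true]
      exact ih h2
    · obtain rfl : τ = t + 1 := by omega
      rfl

theorem view_congr (Q : Finset (Packet V)) {p p' : ℕ → Packet V → ℕ} {t : ℕ} (u : V)
    (h : ∀ τ ≤ t, ∀ q, p τ q = p' τ q) : view G Q p t u = view G Q p' t u := by
  unfold view
  apply List.map_congr_left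
  intro τ hτ
  have h1 : τ ≤ t := by
    have := List.mem_range.1 hτ
    omega
  have h2 : p τ = p' τ := funext fun q => h τ h1 q
  rw [h2]

theorem move_congr (P : Protocol V) (Q : Finset (Packet V)) {p p' : ℕ → Packet V → ℕ} {t : ℕ}
    (q : Packet V) (h : ∀ τ ≤ t, ∀ q, p τ q = p' τ q) :
    move G P Q p t q = move G P Q p' t q := by
  unfold move
  rw [h t le_rfl q]
  rcases h1 : q.2[p' t q]? with _ | u
  · rfl
  · rcases h2 : q.2[p' t q + 1]? with _ | v
    · rfl
    · dsimp only
      rw [view_congr G Q u h]

theorem pos_zero (P : Protocol V) (Q : Finset (Packet V)) (q : Packet V) :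
    pos G P Q 0 q = 0 := rfl

theorem pos_succ (P : Protocol V) (Q : Finset (Packet V)) (t : ℕ) (q : Packet V) :
    pos G P Q (t + 1) q = move G P Q (pos G P Q) t q := by
  have h : pos G P Q (t + 1) q = move G P Q (traj G P Q t) t q := by
    unfold pos
    simp only [traj]
    have : ¬ (t + 1 ≤ t) := by omega
    simp [this]
  rw [h]
  exact move_congr G P Q q fun τ hτ q => traj_of_le G P Q hτ q

theorem le_move (P : Protocol V) (Q : Finset (Packet V)) (p : ℕ → Packet V → ℕ) (t : ℕ)
    (q : Packet V) : p t q ≤ move G P Q p t q ∧ move G P Q p t q ≤ p t q + 1 := by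
  unfold move
  split
  · split <;> omega
  · omega

theorem pos_le_succ (P : Protocol V) (Q : Finset (Packet V)) (t : ℕ) (q : Packet V) :
    pos G P Q t q ≤ pos G P Q (t + 1) q := by
  rw [pos_succ]
  exact (le_move G P Q (pos G P Q) t q).1

theorem pos_succ_le (P : Protocol V) (Q : Finset (Packet V)) (t : ℕ) (q : Packet V) :
    pos G P Q (t + 1) q ≤ pos G P Q t q + 1 := by
  rw [pos_succ]
  exact (le_move G P Q (pos G P Q) t q).2

theorem pos_mono (P : Protocol V) (Q : Finset (Packet V)) (q : Packet V) :
    Monotone fun t => pos G P Q t q :=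
  monotone_nat_of_le_succ fun t => pos_le_succ G P Q t q

/-- A packet which moves in step `t` was chosen by the protocol for the next edge of its path. -/
theorem chosen (P : Protocol V) (Q : Finset (Packet V)) (t : ℕ) (q : Packet V)
    (h : pos G P Q (t + 1) q ≠ pos G P Q t q) : ∃ u v, q.2[pos G P Q t q]? = some u ∧
      q.2[pos G P Q t q + 1]? = some v ∧ P u v (view G Q (pos G P Q) t u) = some q := by
  rw [pos_succ] at h
  unfold move at h
  rcases h1 : q.2[pos G P Q t q]? with _ | u
  · rw [h1] at h
    exact absurd rfl h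
  · rcases h2 : q.2[pos G P Q t q + 1]? with _ | v
    · rw [h1, h2] at h
      exact absurd rfl h
    · rw [h1, h2] at h
      refine ⟨u, v, rfl, rfl, ?_⟩
      by_contra h3
      simp [h3] at h

end Pool.Agent.W998.Route
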