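import Mathlib

/-!
# Online packet routing along given paths: the model

A packet is a pair of a name and a path (the list of its nodes, source first).  In every step every
edge forwards at most one packet.  An online protocol decides for each edge `(u, v)` and each step
which packet waiting at `u` crosses the edge.  We give the protocols more information than usual:
the node `u` sees, at present and in the past, the packets (names and full paths) at `u` and at all
nodes upstream of `u`, i.e. at all nodes from which `u` can be reached in the network.
-/

set_option autoImplicit false

namespace Pool.Agent.W998.Route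

/-- A packet: its name and its path, as the list of the nodes from the source to the target. -/
abbrev Packet (V : Type) : Type := ℕ × List V

/-- A (deterministic) online protocol: for nodes `u`, `v` and the history at `u`, i.e. the list of
what `u` saw at the times `0, 1, …, t` (see `present`), the packet which is forwarded along the edge
from `u` to `v` in step `t` (if any). -/
abbrev Protocol (V : Type) : Type := V → V → List (Finset (Packet V × ℕ)) → Option (Packet V)

section
variable {V : Type}

open Classical in
/-- What the node `u` sees if each packet `q` of `Q` has made `p q` steps of its path: the pairs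
`(q, p q)` for all packets `q` which are at `u` or at a node from which `u` can be reached in the
network `G`. -/
noncomputable def present (G : V → V → Prop) (Q : Finset (Packet V)) (p : Packet V → ℕ) (u : V) :
    Finset (Packet V × ℕ) :=
  (Q.filter fun q => ∃ w, q.2[p q]? = some w ∧ Relation.ReflTransGen G w u).image
    fun q => (q, p q)

/-- The history of the node `u` at the times `0, …, t`. -/
noncomputable def view (G : V → V → Prop) (Q : Finset (Packet V)) (pos : ℕ → Packet V → ℕ) (t : ℕ)
    (u : V) : List (Finset (Packet V × ℕ)) :=
  (List.range (t + 1)).map fun τ => present G Q (pos τ) u

open Classical in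
/-- One step: the packet `q`, after `t` steps at `u` with the edge from `u` to `v` next on its path,
crosses this edge if and only if the protocol chooses it for this edge. -/
noncomputable def move (G : V → V → Prop) (P : Protocol V) (Q : Finset (Packet V))
    (pos : ℕ → Packet V → ℕ) (t : ℕ) (q : Packet V) : ℕ :=
  match q.2[pos t q]?, q.2[pos t q + 1]? with
  | some u, some v => if P u v (view G Q pos t u) = some q then pos t q + 1 else pos t q
  | _, _ => pos t q

/-- The positions at the times `0, …, t` (later times are irrelevant). -/
noncomputable def traj (G : V → V → Prop) (P : Protocol V) (Q : Finset (Packet V)) :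
    ℕ → ℕ → Packet V → ℕ
  | 0 => fun _ _ => 0
  | t + 1 => fun τ q => if τ ≤ t then traj G P Q t τ q else move G P Q (traj G P Q t) t q

/-- The number of steps of its path which the packet `q` has made at time `t`, if the packets in `Q`
start at time `0` and are routed by the protocol `P` in the network `G`. -/
noncomputable def pos (G : V → V → Prop) (P : Protocol V) (Q : Finset (Packet V)) (t : ℕ)
    (q : Packet V) : ℕ := traj G P Q t t q

/-- All packets of `Q` have reached their targets at time `T`. -/
def Delivered (G : V → V → Prop) (P : Protocol V) (Q : Finset (Packet V)) (T : ℕ) : Prop :=
  ∀ q ∈ Q, q.2.length ≤ pos G P Q T q + 1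

/-- The path of the packet `q` uses the edge from `u` to `v`. -/
def Uses (q : Packet V) (u v : V) : Prop := ∃ i : ℕ, q.2[i]? = some u ∧ q.2[i + 1]? = some v

/-- `Q` is a simple path collection in the network (directed graph) `G`: all paths are nonempty walks
in `G` that do not repeat a node. -/
def SimplePaths (G : V → V → Prop) (Q : Finset (Packet V)) : Prop :=
  ∀ q ∈ Q, q.2 ≠ [] ∧ q.2.Nodup ∧ ∀ u v, Uses q u v → G u v

/-- Every edge is used by at most `C` paths. -/
def CongestionLE (Q : Finset (Packet V)) (C : ℕ) : Prop :=
  ∀ u v : V, {q | q ∈ Q ∧ Uses q u v}.ncard ≤ C

/-- Every path has at most `D` edges. -/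
def DilationLE (Q : Finset (Packet V)) (D : ℕ) : Prop := ∀ q ∈ Q, q.2.length ≤ D + 1

end

end Pool.Agent.W998.Route
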