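import Pool.Agent.W998.Route.Grid

/-! For every deterministic online protocol there is a small set of packets, one of which is late. -/

set_option autoImplicit false

namespace Pool.Agent.W998.Route

open Finset

section
variable {L M N D : ℕ}

/-- Two points are on a common line in direction `i`. -/
def SameLine (i : Fin L) (y z : Pt L M N) : Prop :=
  z.2 = y.2 ∧ ∀ i', i' ≠ i → z.1 i' = y.1 i'

/-- Every line contains at most `k` points of `A`. -/
def LineLE (A : Finset (Pt L M N)) (k : ℕ) : Prop :=
  ∀ (i : Fin L) (F : Finset (Pt L M N)), F ⊆ A → (∀ y ∈ F, ∀ z ∈ F, SameLine i y z) → F.card ≤ k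

/-- At most one packet crosses an edge in every step. -/
theorem crossing {ι : Type} [DecidableEq ι] (P : Protocol (Nd D L M N))
    (Q : Finset (Packet (Nd D L M N))) (J : Finset ι) (p : ι → Pt L M N)
    (hp : ∀ j ∈ J, ∀ j' ∈ J, pk D (p j) = pk D (p j') → j = j') (r : ℕ) (hr : r + 1 < D + 1)
    (h0 : ∀ j ∈ J, ∀ j' ∈ J,
      node (⟨r, by omega⟩ : Fin (D + 1)) (p j) = node (⟨r, by omega⟩ : Fin (D + 1)) (p j'))
    (h1 : ∀ j ∈ J, ∀ j' ∈ J,
      node (⟨r + 1, hr⟩ : Fin (D + 1)) (p j) = node (⟨r + 1, hr⟩ : Fin (D + 1)) (p j'))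
    (T : ℕ) (hT : ∀ j ∈ J, pos net P Q T (pk D (p j)) ≤ r) (i : ℕ) :
    (J.filter fun j => r < pos net P Q (T + i) (pk D (p j))).card ≤ i := by
  induction i with
  | zero =>
    rw [Nat.le_zero, Finset.card_eq_zero, Finset.filter_eq_empty_iff]
    intro j hj h
    have := hT j hj
    simp only [Nat.add_zero] at h
    omega
  | succ i ih =>
    have h2 : (J.filter fun j => r < pos net P Q (T + (i + 1)) (pk D (p j))) ⊆
        (J.filter fun j => r < pos net P Q (T + i) (pk D (p j))) ∪
          (J.filter fun j => pos net P Q (T + i) (pk D (p j)) ≤ r ∧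
            r < pos net P Q (T + (i + 1)) (pk D (p j))) := by
      intro j hj
      rw [Finset.mem_filter] at hj
      rw [Finset.mem_union, Finset.mem_filter, Finset.mem_filter]
      rcases Nat.lt_or_ge r (pos net P Q (T + i) (pk D (p j))) with h | h
      · exact Or.inl ⟨hj.1, h⟩
      · exact Or.inr ⟨hj.1, h, hj.2⟩
    have h3 : (J.filter fun j => pos net P Q (T + i) (pk D (p j)) ≤ r ∧
            r < pos net P Q (T + (i + 1)) (pk D (p j))).card ≤ 1 := by
      rw [Finset.card_le_one]
      have key : ∀ j ∈ (J.filter fun j => pos net P Q (T + i) (pk D (p j)) ≤ r ∧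
            r < pos net P Q (T + (i + 1)) (pk D (p j))),
          P (node ⟨r, by omega⟩ (p j)) (node ⟨r + 1, hr⟩ (p j))
            (view net Q (pos net P Q) (T + i) (node ⟨r, by omega⟩ (p j))) = some (pk D (p j)) := by
        intro j hj
        rw [Finset.mem_filter] at hj
        obtain ⟨hj, h4, h5⟩ := hj
        have h6 := pos_succ_le net P Q (T + i) (pk D (p j))
        have h7 : T + (i + 1) = T + i + 1 := by omega
        rw [h7] at h5
        have h8 : pos net P Q (T + i) (pk D (p j)) = r := by omega
        obtain ⟨u, v, hu, hv, h9⟩ := chosen net P Q (T + i) (pk D (p j)) (by omega)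
        rw [h8] at hu hv
        obtain ⟨_, rfl⟩ := get_pth_some (p j) _ u hu
        obtain ⟨_, rfl⟩ := get_pth_some (p j) _ v hv
        exact h9
      intro j hj j' hj'
      have k1 := key j hj
      have k2 := key j' hj'
      rw [Finset.mem_filter] at hj hj'
      rw [h0 j hj.1 j' hj'.1, h1 j hj.1 j' hj'.1, k2] at k1
      exact (hp j' hj'.1 j hj.1 (Option.some.inj k1)).symm
    calc _ ≤ _ := Finset.card_le_card h2
      _ ≤ _ := Finset.card_union_le _ _
      _ ≤ i + 1 := by omega

/-- The gadget. -/
theorem gadget (P : Protocol (Nd D L M N)) (hL : 2 ≤ L) (hD : 2 * L ≤ D + 1) (k : ℕ) (hk : 1 ≤ k) (d : ℕ → ℕ)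
    (hd0 : ∀ i, 0 < d i) (hd : ∀ ℓ < L, (∏ i ∈ range ℓ, d i) * k ≤ d ℓ)
    (hM : ∀ ℓ < L, d ℓ ≤ M + 1) (ℓ : ℕ) : ∀ (_ : ℓ ≤ L) (s : Pt L M N),
    ∃ A : Finset (Pt L M N), ∃ p ∈ A, (∀ z ∈ A, Cell ℓ s z) ∧
      (∀ z ∈ A, ∀ i : Fin L, (i : ℕ) < ℓ → (z.1 i : ℕ) < d i) ∧ A.card = k ^ ℓ ∧ LineLE A k ∧
      ∀ t, t + 2 ≤ ℓ * (k + 1) → pos net P (A.image (pk D)) t (pk D p) + 2 ≤ 2 * ℓ := by
  induction ℓ with
  | zero =>
    intro _ s
    refine ⟨{s}, s, Finset.mem_singleton_self s, ?_, ?_, by simp, ?_, ?_⟩
    · intro z hz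
      rw [Finset.mem_singleton] at hz
      subst hz
      exact ⟨rfl, fun _ _ => rfl⟩
    · intro z _ i hi
      omega
    · intro i F hF _
      exact (Finset.card_le_card hF).trans (by simpa using hk)
    · intro t ht
      omega
  | succ ℓ ih =>
    intro hℓ s
    have hℓ' : ℓ < L := by omega
    have hc := hM ℓ hℓ'
    set e : Fin L := ⟨ℓ, hℓ'⟩ with he
    choose A p hpA hcell hlt hcard hline hlate using fun j : Fin (d ℓ) =>
      ih (by omega) ((Function.update s.1 e (Fin.castLE hc j), s.2) : Pt L M N)
    have hze : ∀ j, ∀ z ∈ A j, z.1 e = Fin.castLE hc j := by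
      intro j z hz
      have := (hcell j z hz).2 e le_rfl
      simpa using this
    have hcell' : ∀ j, ∀ z ∈ A j, Cell (ℓ + 1) s z := by
      intro j z hz
      refine ⟨(hcell j z hz).1, fun i hi => ?_⟩
      have h1 := (hcell j z hz).2 i (by omega)
      have h2 : i ≠ e := by
        intro h
        have := congrArg Fin.val h
        simp only [he] at this
        omega
      simpa [Function.update_of_ne h2] using h1
    -- pigeonhole
    obtain ⟨y, _, hy⟩ := Finset.exists_le_card_fiber_of_mul_le_card_of_maps_to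
      (s := (Finset.univ : Finset (Fin (d ℓ))))
      (t := Fintype.piFinset fun i : Fin ℓ => range (d i))
      (f := fun j => fun i : Fin ℓ => ((p j).1 ⟨i, by omega⟩ : ℕ)) (n := k)
      (by
        intro j _
        rw [Fintype.mem_piFinset]
        intro i
        rw [Finset.mem_range]
        exact hlt j (p j) (hpA j) ⟨i, by omega⟩ i.2)
      (by
        refine ⟨fun _ => 0, ?_⟩
        rw [Fintype.mem_piFinset]
        intro i
        rw [Finset.mem_range]
        exact hd0 i)
      (by
        rw [Fintype.card_piFinset]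
        simp only [Finset.card_range, Finset.card_univ, Fintype.card_fin]
        rw [← Finset.prod_range (fun i => d i)]
        exact hd ℓ hℓ')
    obtain ⟨J, hJ, hJk⟩ := Finset.exists_subset_card_eq hy
    have hJy : ∀ j ∈ J, ∀ j' ∈ J, ∀ i : Fin L, i ≠ e → (p j).1 i = (p j').1 i := by
      intro j hj j' hj' i hi
      rcases Nat.lt_or_ge i ℓ with h1 | h1
      · have h2 := (Finset.mem_filter.1 (hJ hj)).2
        have h3 := (Finset.mem_filter.1 (hJ hj')).2
        have h4 := congrFun (h2.trans h3.symm) ⟨i, h1⟩
        exact Fin.ext h4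
      · have h5 : ℓ + 1 ≤ i := by
          rcases Nat.lt_or_ge ℓ i with h | h
          · exact h
          · exact absurd (Fin.ext (by simp only [he]; omega)) hi
        rw [(hcell' j _ (hpA j)).2 i h5, (hcell' j' _ (hpA j')).2 i h5]
    have hdisj : ∀ j j' z, z ∈ A j → z ∈ A j' → j = j' := by
      intro j j' z h1 h2
      have h3 := (hze j z h1).symm.trans (hze j' z h2)
      exact Fin.castLE_injective hc h3
    have hagree : ∀ j ∈ J, ∀ z,
        Cell ℓ ((Function.update s.1 e (Fin.castLE hc j), s.2) : Pt L M N) z →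
        (z ∈ J.biUnion A ↔ z ∈ A j) := by
      intro j hj z hz
      rw [Finset.mem_biUnion]
      constructor
      · rintro ⟨j', _, hj'⟩
        have h1 := hze j' z hj'
        have h2 : z.1 e = Fin.castLE hc j := by simpa using hz.2 e le_rfl
        have h3 : j' = j := Fin.castLE_injective hc (h1.symm.trans h2)
        rwa [h3] at hj'
      · intro h
        exact ⟨j, hj, h⟩
    have hT : ∀ j ∈ J, pos net P ((J.biUnion A).image (pk D)) (ℓ * (k + 1)) (pk D (p j)) ≤ 2 * ℓ := by
      intro j hj
      rcases Nat.eq_zero_or_pos ℓ with h0 | h0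
      · have h1 : ℓ * (k + 1) = 0 := by simp [h0]
        rw [h1, pos_zero]
        omega
      · have h1 : 2 ≤ ℓ * (k + 1) := by nlinarith
        obtain ⟨T, hTe⟩ : ∃ T, ℓ * (k + 1) = T + 1 + 1 := ⟨ℓ * (k + 1) - 2, by omega⟩
        have h2 := hlate j T (by omega)
        have h3 := locality P ℓ (by omega) _ _ _ (hagree j hj) T T le_rfl (p j)
          (Finset.mem_biUnion.2 ⟨j, hj, hpA j⟩) (hcell j _ (hpA j))
        have h4 := pos_succ_le net P ((J.biUnion A).image (pk D)) T (pk D (p j))
        have h5 := pos_succ_le net P ((J.biUnion A).image (pk D)) (T + 1) (pk D (p j))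
        rw [hTe]
        omega
    have hr : 2 * ℓ + 1 < D + 1 := by omega
    have hcross := crossing P ((J.biUnion A).image (pk D)) J p
      (by
        intro j _ j' _ h
        have h1 := pk_injective (by omega) h
        have h2 := hpA j
        rw [h1] at h2
        exact hdisj j j' _ h2 (hpA j'))
      (2 * ℓ) hr
      (by
        intro j hj j' hj'
        rw [node_eq_iff]
        refine ⟨(hcell j _ (hpA j)).1.trans (hcell j' _ (hpA j')).1.symm, fun i hi => ?_⟩
        apply hJy j hj j' hj'
        intro h
        apply hi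
        rw [h]
        simp only [he]
        omega)
      (by
        intro j hj j' hj'
        rw [node_eq_iff]
        refine ⟨(hcell j _ (hpA j)).1.trans (hcell j' _ (hpA j')).1.symm, fun i hi => ?_⟩
        apply hJy j hj j' hj'
        intro h
        apply hi
        rw [h]
        simp only [he]
        omega)
      (ℓ * (k + 1)) hT (k - 1)
    obtain ⟨j, hj, hjp⟩ : ∃ j ∈ J, pos net P ((J.biUnion A).image (pk D)) (ℓ * (k + 1) + (k - 1))
        (pk D (p j)) ≤ 2 * ℓ := by
      by_contra hcon
      push Not at hcon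
      have : (J.filter fun j => 2 * ℓ < pos net P ((J.biUnion A).image (pk D))
          (ℓ * (k + 1) + (k - 1)) (pk D (p j))) = J := by
        rw [Finset.filter_eq_self]
        exact hcon
      rw [this, hJk] at hcross
      omega
    refine ⟨J.biUnion A, p j, Finset.mem_biUnion.2 ⟨j, hj, hpA j⟩, ?_, ?_, ?_, ?_, ?_⟩
    · intro z hz
      obtain ⟨j, _, hz⟩ := Finset.mem_biUnion.1 hz
      exact hcell' j z hz
    · intro z hz i hi
      obtain ⟨j, _, hz⟩ := Finset.mem_biUnion.1 hz
      rcases Nat.lt_or_ge i ℓ with h1 | h1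
      · exact hlt j z hz i h1
      · have h2 : i = e := Fin.ext (by simp only [he]; omega)
        rw [h2, hze j z hz]
        exact j.2
    · rw [Finset.card_biUnion]
      · rw [Finset.sum_congr rfl fun j _ => hcard j, Finset.sum_const, hJk, smul_eq_mul, pow_succ,
          Nat.mul_comm]
      · intro j _ j' _ hjj'
        change Disjoint (A j) (A j')
        rw [Finset.disjoint_left]
        intro z h1 h2
        exact hjj' (hdisj j j' z h1 h2)
    · intro i F hF hFl
      by_cases hi : i = e
      · subst hi
        rw [← hJk]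
        have hinj : Set.InjOn (fun z : Pt L M N => z.1 e) (F : Set (Pt L M N)) := by
          intro y hy z hz hyz
          have h1 := hFl y hy z hz
          refine (Prod.ext ?_ h1.1).symm
          funext i'
          by_cases hi' : i' = e
          · rw [hi']
            exact hyz.symm
          · exact h1.2 i' hi'
        rw [← Finset.card_image_of_injOn hinj]
        have hsub : F.image (fun z : Pt L M N => z.1 e) ⊆ J.image (Fin.castLE hc) := by
          intro x hx
          obtain ⟨z, hz, rfl⟩ := Finset.mem_image.1 hx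
          obtain ⟨j, hj, hz⟩ := Finset.mem_biUnion.1 (hF hz)
          exact Finset.mem_image.2 ⟨j, hj, (hze j z hz).symm⟩
        exact (Finset.card_le_card hsub).trans Finset.card_image_le
      · rcases F.eq_empty_or_nonempty with h0 | ⟨y, hy⟩
        · rw [h0]
          simp
        · obtain ⟨j, hj, hyj⟩ := Finset.mem_biUnion.1 (hF hy)
          apply hline j i F
          · intro z hz
            obtain ⟨j', hj', hzj'⟩ := Finset.mem_biUnion.1 (hF hz)
            have h1 := (hFl y hy z hz).2 e (fun h => hi h.symm)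
            rw [hze j' z hzj', hze j y hyj] at h1
            have h2 : j' = j := Fin.castLE_injective hc h1
            rwa [h2] at hzj'
          · exact hFl
    · intro t ht
      have h1 : t ≤ ℓ * (k + 1) + (k - 1) := by
        have : (ℓ + 1) * (k + 1) = ℓ * (k + 1) + k + 1 := by ring
        omega
      have h2 := pos_mono net P ((J.biUnion A).image (pk D)) (pk D (p j)) h1
      dsimp only at h2
      omega

end

end Pool.Agent.W998.Route
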