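import Pool.Agent.W998.Route.Basic

/-! The network of the lower bound and the locality of runs in it. -/

set_option autoImplicit false

namespace Pool.Agent.W998.Route

open Finset

section
variable {L M N D : ℕ}

/-- Points: a point of a grid of dimension `L` and the number of a copy. -/
abbrev Pt (L M N : ℕ) : Type := (Fin L → Fin (M + 1)) × Fin N

/-- Nodes of the network: the level, a point of the grid, the number of a copy. -/
abbrev Nd (D L M N : ℕ) : Type := Fin (D + 1) × (Fin L → Fin (M + 1)) × Fin N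

/-- The node of level `r` on the path of the point `z`: the coordinate `r / 2` is replaced by `0`. -/
def node (r : Fin (D + 1)) (z : Pt L M N) : Nd D L M N :=
  (r, fun i => if (i : ℕ) = r / 2 then 0 else z.1 i, z.2)

/-- The path of the point `z`. -/
def pth (D : ℕ) (z : Pt L M N) : List (Nd D L M N) := List.ofFn fun r => node r z

/-- The packet of the point `z`. -/
def pk (D : ℕ) (z : Pt L M N) : Packet (Nd D L M N) := (0, pth D z)

/-- The network. -/
def net (u v : Nd D L M N) : Prop :=
  ∃ z : Pt L M N, ∃ r : ℕ, ∃ h : r + 1 < D + 1,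
    u = node ⟨r, by omega⟩ z ∧ v = node ⟨r + 1, h⟩ z

theorem node_eq_iff (r : Fin (D + 1)) (z z' : Pt L M N) :
    node r z = node r z' ↔ z.2 = z'.2 ∧ ∀ i : Fin L, (i : ℕ) ≠ r / 2 → z.1 i = z'.1 i := by
  unfold node
  constructor
  · intro h
    have h1 := congrArg (fun u : Nd D L M N => u.2.1) h
    have h2 := congrArg (fun u : Nd D L M N => u.2.2) h
    refine ⟨h2, fun i hi => ?_⟩
    have h3 := congrFun h1 i
    simpa [hi] using h3
  · rintro ⟨h1, h2⟩
    refine Prod.ext rfl (Prod.ext ?_ h1)
    funext i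
    by_cases hi : (i : ℕ) = r / 2
    · simp [hi]
    · simp [hi, h2 i hi]

theorem get_pth (z : Pt L M N) (i : ℕ) (hi : i < D + 1) :
    (pth D z)[i]? = some (node ⟨i, hi⟩ z) := by
  unfold pth
  rw [List.getElem?_ofFn]
  simp [hi]

theorem get_pth_none (z : Pt L M N) (i : ℕ) (hi : ¬ i < D + 1) : (pth D z)[i]? = none := by
  unfold pth
  rw [List.getElem?_ofFn]
  simp [hi]

theorem get_pth_some (z : Pt L M N) (i : ℕ) (u : Nd D L M N) (h : (pth D z)[i]? = some u) :
    ∃ hi : i < D + 1, u = node ⟨i, hi⟩ z := by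
  by_cases hi : i < D + 1
  · rw [get_pth z i hi] at h
    exact ⟨hi, (Option.some.inj h).symm⟩
  · rw [get_pth_none z i hi] at h
    cases h

theorem pk_injective (hD : 2 ≤ D) :
    Function.Injective (pk D : Pt L M N → Packet (Nd D L M N)) := by
  intro z z' h
  have h1 : pth D z = pth D z' := congrArg Prod.snd h
  have h2 : ∀ i : ℕ, ∀ hi : i < D + 1, node ⟨i, hi⟩ z = node ⟨i, hi⟩ z' := by
    intro i hi
    have := congrArg (fun l => l[i]?) h1
    simp only [get_pth _ i hi] at this
    exact Option.some.inj this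
  have h3 := (node_eq_iff _ _ _).1 (h2 0 (by omega))
  have h4 := (node_eq_iff _ _ _).1 (h2 2 (by omega))
  refine Prod.ext ?_ h3.1
  funext i
  by_cases hi : (i : ℕ) = 0
  · refine h4.2 i ?_
    simp only
    omega
  · refine h3.2 i ?_
    simp only
    omega

/-- The part of the grid in which the coordinates from `ℓ` on (and the copy) are those of `s`. -/
def Cell (ℓ : ℕ) (s z : Pt L M N) : Prop := z.2 = s.2 ∧ ∀ i : Fin L, ℓ ≤ i → z.1 i = s.1 i

/-- The nodes of level below `2 * ℓ` on the paths of the points of a cell. -/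
def Good (ℓ : ℕ) (s : Pt L M N) (u : Nd D L M N) : Prop :=
  (u.1 : ℕ) < 2 * ℓ ∧ u.2.2 = s.2 ∧ ∀ i : Fin L, ℓ ≤ i → u.2.1 i = s.1 i

theorem good_node (ℓ : ℕ) (s z : Pt L M N) (r : Fin (D + 1)) :
    Good ℓ s (node r z) ↔ (r : ℕ) < 2 * ℓ ∧ Cell ℓ s z := by
  unfold Good Cell node
  constructor
  · rintro ⟨h1, h2, h3⟩
    refine ⟨h1, h2, fun i hi => ?_⟩
    have h4 := h3 i hi
    have h5 : (i : ℕ) ≠ r / 2 := by
      dsimp only at h1
      omega
    simpa [h5] using h4
  · rintro ⟨h1, h2, h3⟩
    refine ⟨h1, h2, fun i hi => ?_⟩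
    have h5 : (i : ℕ) ≠ r / 2 := by omega
    simpa [h5] using h3 i hi

theorem good_upstream (ℓ : ℕ) (s : Pt L M N) {w u : Nd D L M N}
    (h : Relation.ReflTransGen net w u) (hu : Good ℓ s u) : Good ℓ s w := by
  induction h with
  | refl => exact hu
  | tail _ h1 ih =>
    apply ih
    obtain ⟨z, r, hr, rfl, rfl⟩ := h1
    have h2 := (good_node ℓ s z _).1 hu
    refine (good_node ℓ s z _).2 ⟨?_, h2.2⟩
    have := h2.1
    dsimp only at this ⊢
    omega

theorem present_subset (ℓ : ℕ) (s : Pt L M N) (B B' : Finset (Pt L M N))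
    (hB : ∀ z, Cell ℓ s z → z ∈ B → z ∈ B') (p p' : Packet (Nd D L M N) → ℕ)
    (hp : ∀ z ∈ B, Cell ℓ s z → min (p (pk D z)) (2 * ℓ) = min (p' (pk D z)) (2 * ℓ))
    (u : Nd D L M N) (hu : Good ℓ s u) :
    present net (B.image (pk D)) p u ⊆ present net (B'.image (pk D)) p' u := by
  intro x hx
  rw [mem_present] at hx ⊢
  obtain ⟨q, hq1, ⟨w, hw, hwu⟩, rfl⟩ := hx
  rw [Finset.mem_image] at hq1
  obtain ⟨z, hz, rfl⟩ := hq1
  obtain ⟨hi, rfl⟩ := get_pth_some z _ w hw
  have h1 := (good_node ℓ s z _).1 (good_upstream ℓ s hwu hu)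
  have h2 := hp z hz h1.2
  have h4 := h1.1
  dsimp only at h4
  have h3 : p (pk D z) = p' (pk D z) := by omega
  refine ⟨pk D z, Finset.mem_image_of_mem _ (hB z h1.2 hz), ⟨_, ?_, hwu⟩, by rw [h3]⟩
  rw [← h3]
  exact hw

/-- Locality: what happens at the nodes of level below `2 * ℓ` in a cell depends only on the packets
in this cell. -/
theorem locality (P : Protocol (Nd D L M N)) (ℓ : ℕ) (hℓ : 2 * ℓ ≤ D + 1) (s : Pt L M N)
    (B B' : Finset (Pt L M N)) (hB : ∀ z, Cell ℓ s z → (z ∈ B ↔ z ∈ B')) (t : ℕ) :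
    ∀ τ ≤ t, ∀ z ∈ B, Cell ℓ s z →
      min (pos net P (B.image (pk D)) τ (pk D z)) (2 * ℓ) =
        min (pos net P (B'.image (pk D)) τ (pk D z)) (2 * ℓ) := by
  induction t with
  | zero =>
    intro τ hτ z _ _
    obtain rfl : τ = 0 := by omega
    rfl
  | succ t ih =>
    intro τ hτ z hz hc
    rcases Nat.lt_or_ge τ (t + 1) with h1 | h1
    · exact ih τ (by omega) z hz hc
    obtain rfl : τ = t + 1 := by omega
    have h2 := ih t le_rfl z hz hc
    have h3 := pos_le_succ net P (B.image (pk D)) t (pk D z)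
    have h4 := pos_le_succ net P (B'.image (pk D)) t (pk D z)
    rcases Nat.lt_or_ge (pos net P (B.image (pk D)) t (pk D z)) (2 * ℓ) with h5 | h5
    · have h6 : pos net P (B'.image (pk D)) t (pk D z) = pos net P (B.image (pk D)) t (pk D z) := by
        omega
      suffices h : pos net P (B.image (pk D)) (t + 1) (pk D z) =
          pos net P (B'.image (pk D)) (t + 1) (pk D z) by rw [h]
      rw [pos_succ, pos_succ]
      unfold move
      rw [h6]
      have h7 : pos net P (B.image (pk D)) t (pk D z) < D + 1 := by omega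
      have h8 : (pk D z).2[pos net P (B.image (pk D)) t (pk D z)]? = some (node ⟨_, h7⟩ z) :=
        get_pth z _ h7
      rw [h8]
      rcases h9 : (pk D z).2[pos net P (B.image (pk D)) t (pk D z) + 1]? with _ | v
      · rfl
      · dsimp only
        have hgood : Good ℓ s (node ⟨_, h7⟩ z) := (good_node ℓ s z _).2 ⟨h5, hc⟩
        have h10 : view net (B.image (pk D)) (pos net P (B.image (pk D))) t (node ⟨_, h7⟩ z) =
            view net (B'.image (pk D)) (pos net P (B'.image (pk D))) t (node ⟨_, h7⟩ z) := by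
          unfold view
          apply List.map_congr_left
          intro τ hτ
          have hτ' : τ ≤ t := by
            have := List.mem_range.1 hτ
            omega
          apply Finset.Subset.antisymm
          · exact present_subset ℓ s B B' (fun z hc hz => (hB z hc).1 hz) _ _
              (fun z hz hc => ih τ hτ' z hz hc) _ hgood
          · exact present_subset ℓ s B' B (fun z hc hz => (hB z hc).2 hz) _ _
              (fun z hz hc => (ih τ hτ' z ((hB z hc).2 hz) hc).symm) _ hgood
        rw [h10]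
    · omega

end

end Pool.Agent.W998.Route
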