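import Pool.Agent.W998.Route.Yao

/-! The choice of the parameters. -/

set_option autoImplicit false

namespace Pool.Agent.W998.Route

open Finset MeasureTheory

theorem prod_aux (m ℓ : ℕ) : (∏ i ∈ Finset.range ℓ, m ^ 2 ^ i) * m = m ^ 2 ^ ℓ := by
  induction ℓ with
  | zero => simp
  | succ ℓ ih =>
    rw [Finset.prod_range_succ, Nat.mul_right_comm, ih, ← pow_add]
    congr 1
    ring

theorem prob_aux (k L n K : ℕ) (hk : 1 ≤ k) (hL : 1 ≤ L)
    (hn : (4 * (k : ℝ)) ^ (L + 1) ≤ Real.log n) (hK1 : 1 ≤ K)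
    (hK : K ≤ ((k ^ 2 ^ L) ^ L) ^ k ^ L) :
    (1 - 1 / (K : ℝ)) ^ (n / k ^ L) ≤ Real.exp (-Real.sqrt n) := by
  set y : ℝ := Real.log n with hy
  have hk1 : (1 : ℝ) ≤ k := by exact_mod_cast hk
  have hy1 : 1 ≤ y := le_trans (one_le_pow₀ (by linarith)) hn
  have hn0 : (0 : ℝ) < n := by
    rcases Nat.eq_zero_or_pos n with h | h
    · rw [h] at hy
      simp at hy
      linarith
    · exact_mod_cast h
  have hny : (n : ℝ) = Real.exp y := (Real.exp_log hn0).symm
  have h4 : 4 ^ L * (k : ℝ) ^ (L + 1) ≤ y / 4 := by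
    have h5 : (4 * (k : ℝ)) ^ (L + 1) = 4 * (4 ^ L * (k : ℝ) ^ (L + 1)) := by
      rw [mul_pow, pow_succ 4 L]
      ring
    rw [h5] at hn
    linarith
  -- bound for K
  have hK' : (K : ℝ) ≤ Real.exp (y / 4) := by
    have h6 : (K : ℝ) ≤ (k : ℝ) ^ (2 ^ L * L * k ^ L) := by
      rw [pow_mul, pow_mul]
      exact_mod_cast hK
    refine h6.trans ?_
    have hk0 : (0 : ℝ) < k := by linarith
    have h7 : (k : ℝ) ≤ Real.exp k := by
      have := Real.add_one_le_exp (k : ℝ)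
      linarith
    calc (k : ℝ) ^ (2 ^ L * L * k ^ L) ≤ (Real.exp k) ^ (2 ^ L * L * k ^ L) :=
          pow_le_pow_left₀ hk0.le h7 _
      _ = Real.exp (((2 ^ L * L * k ^ L : ℕ) : ℝ) * k) := by rw [← Real.exp_nat_mul]
      _ ≤ Real.exp (y / 4) := by
          apply Real.exp_le_exp.2
          refine le_trans ?_ h4
          push_cast
          have h8 : (L : ℝ) ≤ 2 ^ L := by exact_mod_cast (Nat.lt_two_pow_self).le
          have h9 : (4 : ℝ) ^ L = 2 ^ L * 2 ^ L := by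
            rw [← mul_pow]
            norm_num
          rw [h9, pow_succ (k : ℝ) L]
          calc (2 : ℝ) ^ L * L * (k : ℝ) ^ L * k ≤ 2 ^ L * 2 ^ L * (k : ℝ) ^ L * k := by
                gcongr
            _ = _ := by ring
  have hkL : 2 * (k : ℝ) ^ L ≤ Real.exp (y / 4) := by
    have h8 : (2 : ℝ) ≤ 4 ^ L := by
      calc (2 : ℝ) ≤ 4 ^ 1 := by norm_num
        _ ≤ 4 ^ L := pow_le_pow_right₀ (by norm_num) hL
    have h9 : (k : ℝ) ^ L ≤ (k : ℝ) ^ (L + 1) := pow_le_pow_right₀ hk1 (Nat.le_succ L)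
    calc 2 * (k : ℝ) ^ L ≤ 4 ^ L * (k : ℝ) ^ (L + 1) := by gcongr
      _ ≤ y / 4 := h4
      _ ≤ Real.exp (y / 4) := by
        have := Real.add_one_le_exp (y / 4)
        linarith
  have hkL0 : (0 : ℝ) < (k : ℝ) ^ L := by positivity
  -- the number of copies
  have hN : Real.exp (3 * y / 4) ≤ ((n / k ^ L : ℕ) : ℝ) := by
    have h10 : (n : ℝ) ≤ (k : ℝ) ^ L * (((n / k ^ L : ℕ) : ℝ) + 1) := by
      have h11 := (Nat.lt_mul_div_succ n (pow_pos hk L : 0 < k ^ L)).le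
      exact_mod_cast h11
    have h12 : Real.exp y = Real.exp (3 * y / 4) * Real.exp (y / 4) := by
      rw [← Real.exp_add]
      congr 1
      ring
    have h13 : 2 * Real.exp (3 * y / 4) ≤ ((n / k ^ L : ℕ) : ℝ) + 1 := by
      have h14 : 2 * Real.exp (3 * y / 4) * (k : ℝ) ^ L ≤
          (((n / k ^ L : ℕ) : ℝ) + 1) * (k : ℝ) ^ L := by
        calc 2 * Real.exp (3 * y / 4) * (k : ℝ) ^ L =
              Real.exp (3 * y / 4) * (2 * (k : ℝ) ^ L) := by ring
          _ ≤ Real.exp (3 * y / 4) * Real.exp (y / 4) := by gcongr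
          _ = (n : ℝ) := by rw [← h12, hny]
          _ ≤ _ := h10.trans (le_of_eq (by ring))
      exact le_of_mul_le_mul_right h14 hkL0
    have h15 : 1 ≤ Real.exp (3 * y / 4) := Real.one_le_exp (by linarith)
    linarith
  have hK0 : (0 : ℝ) < K := by exact_mod_cast hK1
  have hKr1 : (1 : ℝ) ≤ K := by exact_mod_cast hK1
  have h16 : Real.sqrt n ≤ ((n / k ^ L : ℕ) : ℝ) * (1 / K) := by
    have h17 : Real.sqrt n = Real.exp (y / 2) := by
      rw [hny, Real.sqrt_eq_iff_mul_self_eq (Real.exp_pos _).le (Real.exp_pos _).le,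
        ← Real.exp_add]
      congr 1
      ring
    rw [h17, mul_one_div, le_div_iff₀ hK0]
    calc Real.exp (y / 2) * K ≤ Real.exp (y / 2) * Real.exp (y / 4) := by gcongr
      _ = Real.exp (3 * y / 4) := by
        rw [← Real.exp_add]
        congr 1
        ring
      _ ≤ _ := hN
  calc (1 - 1 / (K : ℝ)) ^ (n / k ^ L) ≤ (Real.exp (-(1 / (K : ℝ)))) ^ (n / k ^ L) := by
        apply pow_le_pow_left₀
        · rw [sub_nonneg, div_le_one hK0]
          exact hKr1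
        · exact Real.one_sub_le_exp_neg _
    _ = Real.exp (((n / k ^ L : ℕ) : ℝ) * -(1 / (K : ℝ))) := by rw [← Real.exp_nat_mul]
    _ ≤ Real.exp (-Real.sqrt n) := by
        apply Real.exp_le_exp.2
        linarith

/-- The lower bound. -/
theorem lower_bound (k L D n : ℕ) (hk : 1 ≤ k) (hL : 2 ≤ L) (hD : 2 * L ≤ D + 1)
    (hn : (4 * (k : ℝ)) ^ (L + 1) ≤ Real.log n) (T : ℕ) (hT : T < L * (k - 1) + D) :
    ∃ (V : Type) (_ : Fintype V) (G : V → V → Prop) (lev : V → ℕ),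
      (∀ u v, G u v → lev v = lev u + 1) ∧
      ∀ (Ω : Type) (_ : MeasurableSpace Ω) (μ : Measure Ω) (_ : IsProbabilityMeasure μ)
        (R : Ω → Protocol V),
        (∀ (Q : Finset (Packet V)) (T : ℕ), MeasurableSet {ω | Delivered G (R ω) Q T}) →
        ∃ Q : Finset (Packet V), Q.card = n ∧ SimplePaths G Q ∧ CongestionLE Q k ∧
          DilationLE Q D ∧
          (∀ q ∈ Q, q.2.length = D + 1 ∧ ∀ i u, q.2[i]? = some u → lev u = i) ∧
          1 - Real.exp (-Real.sqrt n) ≤ μ.real {ω | ¬ Delivered G (R ω) Q T} := by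
  have hd0 : ∀ i : ℕ, 0 < k ^ 2 ^ i := fun i => pow_pos (by omega) _
  have hd : ∀ ℓ < L, (∏ i ∈ Finset.range ℓ, k ^ 2 ^ i) * k ≤ k ^ 2 ^ ℓ := fun ℓ _ =>
    (prod_aux k ℓ).le
  obtain ⟨M, hMe⟩ : ∃ M, k ^ 2 ^ L = M + 1 := ⟨k ^ 2 ^ L - 1, by
    have := hd0 L
    omega⟩
  have hM : ∀ ℓ < L, k ^ 2 ^ ℓ ≤ M + 1 := fun ℓ hℓ => by
    rw [← hMe]
    exact Nat.pow_le_pow_right (by omega) (Nat.pow_le_pow_right (by omega) hℓ.le)
  have hK : (shapes L M k).Nonempty := by
    obtain ⟨A, hA, _⟩ := slow (N := 1) (fun _ _ _ => none : Protocol (Nd D L M 1)) hL hD k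
      hk (fun i => k ^ 2 ^ i) hd0 hd hM _ hT 0
    exact ⟨A, hA⟩
  have hKle : (shapes L M k).card ≤ ((k ^ 2 ^ L) ^ L) ^ k ^ L :=
    (shapes_card_le L M k).trans (le_of_eq (by rw [hMe]))
  have hprob := prob_aux k L n _ hk (by omega) hn (Finset.card_pos.2 hK) hKle
  obtain ⟨A₀, hA₀⟩ := hK
  have hA₀c := ((mem_shapes k A₀).1 hA₀).1
  obtain ⟨E, hE, hEc⟩ := Finset.exists_subset_card_eq (s := A₀) (n := n % k ^ L) (by
    rw [hA₀c]
    exact (Nat.mod_lt _ (pow_pos (by omega) L)).le)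
  refine ⟨Nd D L M (n / k ^ L + 1), inferInstance, net, fun u => (u.1 : ℕ), ?_, ?_⟩
  · rintro u v ⟨z, r, hr, rfl, rfl⟩
    rfl
  · intro Ω _ μ _ R hR
    obtain ⟨b, hb, hle⟩ := random_fail (N := n / k ^ L) hL hD k hk (fun i => k ^ 2 ^ i) hd0 hd hM
      T hT E ⟨A₀, hA₀⟩ μ R hR
    have hadm : ∀ ν, ∃ A ∈ shapes L M k, ext b E ν ⊆ A := by
      intro ν
      rcases Fin.eq_castSucc_or_eq_last ν with ⟨ν', rfl⟩ | rfl
      · rw [ext_castSucc]
        exact ⟨b ν', hb ν', subset_rfl⟩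
      · rw [ext_last]
        exact ⟨A₀, hA₀, hE⟩
    have hcompl : μ.real {ω | ¬ Delivered net (R ω) ((pts (ext b E)).image (pk D)) T} =
        1 - μ.real {ω | Delivered net (R ω) ((pts (ext b E)).image (pk D)) T} := by
      rw [← probReal_compl_eq_one_sub (hR _ _)]
      rfl
    refine ⟨(pts (ext b E)).image (pk D), ?_, simple_pts _,
      congestion_pts k hk _ (pts_line k _ hadm), ?_, ?_, ?_⟩
    · rw [Finset.card_image_of_injective _ (pk_injective (by omega)), pts_card,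
        Fin.sum_univ_castSucc, ext_last, hEc]
      simp only [ext_castSucc]
      rw [Finset.sum_congr rfl fun ν _ => ((mem_shapes k _).1 (hb ν)).1]
      simp only [Finset.sum_const, Finset.card_univ, Fintype.card_fin, smul_eq_mul]
      exact Nat.div_add_mod' n (k ^ L)
    · intro q hq
      obtain ⟨z, _, rfl⟩ := Finset.mem_image.1 hq
      exact (length_pth z).le
    · intro q hq
      obtain ⟨z, _, rfl⟩ := Finset.mem_image.1 hq
      refine ⟨length_pth z, ?_⟩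
      intro i u hu
      obtain ⟨_, rfl⟩ := get_pth_some z i u hu
      rfl
    · rw [hcompl]
      linarith

end Pool.Agent.W998.Route
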