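import Pool.Agent.W998.Route.Gadget

/-! Many disjoint copies: randomised protocols fail with high probability. -/

set_option autoImplicit false

namespace Pool.Agent.W998.Route

open Finset MeasureTheory

section
variable {L M N D : ℕ}

/-- The points of a family of sets of grid points, one for every copy. -/
def pts (a : Fin N → Finset (Fin L → Fin (M + 1))) : Finset (Pt L M N) :=
  Finset.univ.filter fun z => z.1 ∈ a z.2

theorem mem_pts (a : Fin N → Finset (Fin L → Fin (M + 1))) (z : Pt L M N) :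
    z ∈ pts a ↔ z.1 ∈ a z.2 := by
  unfold pts
  simp

open Classical in
/-- The admissible sets of grid points. -/
noncomputable def shapes (L M k : ℕ) : Finset (Finset (Fin L → Fin (M + 1))) :=
  Finset.univ.filter fun A => A.card = k ^ L ∧
    ∀ (i : Fin L) (F : Finset (Fin L → Fin (M + 1))), F ⊆ A →
      (∀ y ∈ F, ∀ z ∈ F, ∀ i', i' ≠ i → z i' = y i') → F.card ≤ k

theorem mem_shapes (k : ℕ) (A : Finset (Fin L → Fin (M + 1))) :
    A ∈ shapes L M k ↔ A.card = k ^ L ∧
    ∀ (i : Fin L) (F : Finset (Fin L → Fin (M + 1))), F ⊆ A →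
      (∀ y ∈ F, ∀ z ∈ F, ∀ i', i' ≠ i → z i' = y i') → F.card ≤ k := by
  unfold shapes
  simp

theorem shapes_card_le (L M k : ℕ) : (shapes L M k).card ≤ ((M + 1) ^ L) ^ k ^ L := by
  classical
  have h1 : shapes L M k ⊆
      (Finset.univ : Finset (Fin L → Fin (M + 1))).powersetCard (k ^ L) := by
    intro A hA
    rw [Finset.mem_powersetCard]
    exact ⟨Finset.subset_univ _, ((mem_shapes k A).1 hA).1⟩
  refine (Finset.card_le_card h1).trans ?_
  rw [Finset.card_powersetCard]
  refine (Nat.choose_le_pow _ _).trans ?_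
  rw [Finset.card_univ, Fintype.card_fun, Fintype.card_fin, Fintype.card_fin]

theorem pts_card (a : Fin N → Finset (Fin L → Fin (M + 1))) :
    (pts a).card = ∑ ν, (a ν).card := by
  rw [Finset.card_eq_sum_card_fiberwise (f := Prod.snd) (t := (Finset.univ : Finset (Fin N)))
    (fun z _ => Finset.mem_coe.2 (Finset.mem_univ _))]
  apply Finset.sum_congr rfl
  intro ν _
  have h1 : ((pts a).filter fun z => z.2 = ν) = (a ν).image fun x => (x, ν) := by
    ext z
    rw [Finset.mem_filter, mem_pts, Finset.mem_image]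
    constructor
    · rintro ⟨h1, h2⟩
      subst h2
      exact ⟨z.1, h1, rfl⟩
    · rintro ⟨x, hx, rfl⟩
      exact ⟨hx, rfl⟩
  rw [h1, Finset.card_image_of_injective _ (fun x y h => congrArg Prod.fst h)]

theorem pts_line (k : ℕ) (a : Fin N → Finset (Fin L → Fin (M + 1)))
    (ha : ∀ ν, ∃ A ∈ shapes L M k, a ν ⊆ A) : LineLE (pts a) k := by
  intro i F hF hl
  rcases F.eq_empty_or_nonempty with h0 | ⟨y, hy⟩
  · rw [h0]
    simp
  have h1 : ∀ z ∈ F, z.2 = y.2 := fun z hz => (hl y hy z hz).1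
  have hinj : Set.InjOn (fun z : Pt L M N => z.1) (F : Set (Pt L M N)) := by
    intro z hz z' hz' h
    exact Prod.ext h ((h1 z hz).trans (h1 z' hz').symm)
  rw [← Finset.card_image_of_injOn hinj]
  obtain ⟨A, hA, hsub⟩ := ha y.2
  apply ((mem_shapes k _).1 hA).2 i
  · intro x hx
    obtain ⟨z, hz, rfl⟩ := Finset.mem_image.1 hx
    have h2 := (mem_pts a z).1 (hF hz)
    rw [h1 z hz] at h2
    exact hsub h2
  · intro x hx x' hx'
    obtain ⟨z, hz, rfl⟩ := Finset.mem_image.1 hx
    obtain ⟨z', hz', rfl⟩ := Finset.mem_image.1 hx'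
    exact (hl z hz z' hz').2

theorem length_pth (z : Pt L M N) : (pth D z).length = D + 1 := by
  unfold pth
  simp

theorem simple_pts (B : Finset (Pt L M N)) :
    SimplePaths (net : Nd D L M N → Nd D L M N → Prop) (B.image (pk D)) := by
  intro q hq
  obtain ⟨z, _, rfl⟩ := Finset.mem_image.1 hq
  refine ⟨?_, ?_, ?_⟩
  · intro h
    have h1 := length_pth (D := D) z
    have h2 : pth D z = [] := h
    rw [h2] at h1
    simp at h1
  · change (pth D z).Nodup
    unfold pth
    rw [List.nodup_ofFn]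
    intro r r' h
    exact congrArg Prod.fst h
  · rintro u v ⟨i, hu, hv⟩
    obtain ⟨_, rfl⟩ := get_pth_some z _ u hu
    obtain ⟨hi, rfl⟩ := get_pth_some z _ v hv
    exact ⟨z, i, hi, rfl, rfl⟩

theorem congestion_pts (k : ℕ) (hk : 1 ≤ k) (B : Finset (Pt L M N)) (hB : LineLE B k) :
    CongestionLE (B.image (pk D)) k := by
  classical
  intro u v
  have h1 : {q | q ∈ B.image (pk D) ∧ Uses q u v} ⊆
      (((B.filter fun z => node u.1 z = u).image (pk D) : Finset (Packet (Nd D L M N))) :
        Set (Packet (Nd D L M N))) := by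
    rintro q ⟨hq, i, hu, hv⟩
    obtain ⟨z, hz, rfl⟩ := Finset.mem_image.1 hq
    obtain ⟨_, rfl⟩ := get_pth_some z _ u hu
    rw [Finset.mem_coe, Finset.mem_image]
    refine ⟨z, ?_, rfl⟩
    rw [Finset.mem_filter]
    exact ⟨hz, rfl⟩
  calc _ ≤ _ := Set.ncard_le_ncard h1 (Finset.finite_toSet _)
    _ = _ := Set.ncard_coe_finset _
    _ ≤ _ := Finset.card_image_le
    _ ≤ k := by
      have key : ∀ y ∈ (B.filter fun z => node u.1 z = u), ∀ z ∈
          (B.filter fun z => node u.1 z = u), z.2 = y.2 ∧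
            ∀ i : Fin L, (i : ℕ) ≠ (u.1 : ℕ) / 2 → z.1 i = y.1 i := by
        intro y hy z hz
        have h2 := (Finset.mem_filter.1 hy).2
        have h3 := (Finset.mem_filter.1 hz).2
        exact (node_eq_iff _ _ _).1 (h3.trans h2.symm)
      by_cases hu : (u.1 : ℕ) / 2 < L
      · apply hB ⟨(u.1 : ℕ) / 2, hu⟩ _ (Finset.filter_subset _ _)
        intro y hy z hz
        obtain ⟨h2, h3⟩ := key y hy z hz
        exact ⟨h2, fun i hi => h3 i fun h => hi (Fin.ext h)⟩
      · refine le_trans (Finset.card_le_one.2 ?_) hk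
        intro y hy z hz
        obtain ⟨h2, h3⟩ := key z hz y hy
        exact Prod.ext (funext fun i => h3 i (by omega)) h2

theorem pos_add_le {V : Type} (G : V → V → Prop) (P : Protocol V) (Q : Finset (Packet V))
    (q : Packet V) (t s : ℕ) : pos G P Q (t + s) q ≤ pos G P Q t q + s := by
  induction s with
  | zero => exact le_rfl
  | succ s ih =>
    have := pos_succ_le G P Q (t + s) q
    rw [← Nat.add_assoc]
    omega

/-- For every protocol and every copy there is an admissible set of packets of this copy with which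
the protocol is too slow, whatever happens in the other copies. -/
theorem slow (P : Protocol (Nd D L M N)) (hL : 2 ≤ L) (hD : 2 * L ≤ D + 1) (k : ℕ) (hk : 1 ≤ k)
    (d : ℕ → ℕ) (hd0 : ∀ i, 0 < d i) (hd : ∀ ℓ < L, (∏ i ∈ range ℓ, d i) * k ≤ d ℓ)
    (hM : ∀ ℓ < L, d ℓ ≤ M + 1) (T : ℕ) (hT : T < L * (k - 1) + D) (ν : Fin N) :
    ∃ A ∈ shapes L M k, ∀ a : Fin N → Finset (Fin L → Fin (M + 1)), a ν = A →
      ¬ Delivered net P ((pts a).image (pk D)) T := by
  obtain ⟨A, p, hp, hcell, _, hcard, hline, hlate⟩ :=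
    gadget P hL hD k hk d hd0 hd hM L le_rfl ((fun _ => 0, ν) : Pt L M N)
  have hν : ∀ z ∈ A, z.2 = ν := fun z hz => (hcell z hz).1
  have hinj : Set.InjOn (fun z : Pt L M N => z.1) (A : Set (Pt L M N)) := by
    intro z hz z' hz' h
    exact Prod.ext h ((hν z hz).trans (hν z' hz').symm)
  refine ⟨A.image fun z => z.1, ?_, ?_⟩
  · rw [mem_shapes]
    refine ⟨by rw [Finset.card_image_of_injOn hinj, hcard], ?_⟩
    intro i F hF hl
    have h1 : (F.image fun x => ((x, ν) : Pt L M N)).card = F.card :=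
      Finset.card_image_of_injective _ (fun x y h => congrArg Prod.fst h)
    rw [← h1]
    apply hline i
    · intro z hz
      obtain ⟨x, hx, rfl⟩ := Finset.mem_image.1 hz
      obtain ⟨z, hz, h⟩ := Finset.mem_image.1 (hF hx)
      have h2 : z = (x, ν) := Prod.ext h (hν z hz)
      rwa [h2] at hz
    · intro y hy z hz
      obtain ⟨y', hy', rfl⟩ := Finset.mem_image.1 hy
      obtain ⟨z', hz', rfl⟩ := Finset.mem_image.1 hz
      exact ⟨rfl, hl y' hy' z' hz'⟩
  · intro a ha hdel
    have hagree : ∀ z : Pt L M N, Cell L ((fun _ => 0, ν) : Pt L M N) z →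
        (z ∈ pts a ↔ z ∈ A) := by
      intro z hz
      rw [mem_pts, hz.1, ha, Finset.mem_image]
      constructor
      · rintro ⟨z', hz', h⟩
        have h2 : z' = z := Prod.ext h ((hν z' hz').trans hz.1.symm)
        rwa [h2] at hz'
      · intro h
        exact ⟨z, h, rfl⟩
    have hq := (hagree p (hcell p hp)).2 hp
    have h3 := hdel (pk D p) (Finset.mem_image_of_mem _ hq)
    have h4 : (pk D p).2.length = D + 1 := length_pth p
    obtain ⟨t₀, ht₀⟩ : ∃ t₀, t₀ + 2 = L * (k + 1) := by
      have : 2 * 2 ≤ L * (k + 1) := Nat.mul_le_mul hL (by omega)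
      exact ⟨L * (k + 1) - 2, by omega⟩
    have h1 := locality P L hD _ _ _ hagree t₀ t₀ le_rfl p hq (hcell p hp)
    have h2 := hlate t₀ ht₀.le
    have h5 : L * (k + 1) = L * (k - 1) + 2 * L := by
      obtain ⟨k', rfl⟩ : ∃ k', k = k' + 1 := ⟨k - 1, by omega⟩
      simp only [Nat.add_sub_cancel]
      ring
    rcases Nat.le_total T t₀ with h6 | h6
    · have h7 := pos_mono net P ((pts a).image (pk D)) (pk D p) h6
      dsimp only at h7
      omega
    · obtain ⟨s, rfl⟩ := Nat.exists_eq_add_of_le h6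
      have h7 := pos_add_le net P ((pts a).image (pk D)) (pk D p) t₀ s
      omega

/-- A family with one more copy, whose set is fixed. -/
def ext (b : Fin N → Finset (Fin L → Fin (M + 1))) (E : Finset (Fin L → Fin (M + 1))) :
    Fin (N + 1) → Finset (Fin L → Fin (M + 1)) := fun ν => if h : (ν : ℕ) < N then b ⟨ν, h⟩ else E

theorem ext_castSucc (b : Fin N → Finset (Fin L → Fin (M + 1)))
    (E : Finset (Fin L → Fin (M + 1))) (ν : Fin N) : ext b E ν.castSucc = b ν := by
  unfold ext
  simp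

theorem ext_last (b : Fin N → Finset (Fin L → Fin (M + 1)))
    (E : Finset (Fin L → Fin (M + 1))) : ext b E (Fin.last N) = E := by
  unfold ext
  simp

open Classical in
theorem success_card (P : Protocol (Nd D L M (N + 1))) (hL : 2 ≤ L) (hD : 2 * L ≤ D + 1) (k : ℕ)
    (hk : 1 ≤ k) (d : ℕ → ℕ)
    (hd0 : ∀ i, 0 < d i) (hd : ∀ ℓ < L, (∏ i ∈ range ℓ, d i) * k ≤ d ℓ)
    (hM : ∀ ℓ < L, d ℓ ≤ M + 1) (T : ℕ) (hT : T < L * (k - 1) + D)
    (E : Finset (Fin L → Fin (M + 1))) :
    ((Fintype.piFinset fun _ : Fin N => shapes L M k).filter fun b =>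
      Delivered net P ((pts (ext b E)).image (pk D)) T).card ≤ ((shapes L M k).card - 1) ^ N := by
  choose A hA hAs using fun ν : Fin (N + 1) => slow P hL hD k hk d hd0 hd hM T hT ν
  have h1 : ((Fintype.piFinset fun _ : Fin N => shapes L M k).filter fun b =>
      Delivered net P ((pts (ext b E)).image (pk D)) T) ⊆
      Fintype.piFinset fun ν : Fin N => (shapes L M k).erase (A ν.castSucc) := by
    intro b hb
    rw [Finset.mem_filter, Fintype.mem_piFinset] at hb
    rw [Fintype.mem_piFinset]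
    intro ν
    rw [Finset.mem_erase]
    exact ⟨fun h => hAs ν.castSucc (ext b E) ((ext_castSucc b E ν).trans h) hb.2, hb.1 ν⟩
  refine (Finset.card_le_card h1).trans ?_
  rw [Fintype.card_piFinset]
  simp only [fun ν : Fin N => Finset.card_erase_of_mem (hA ν.castSucc)]
  simp

/-- Randomised protocols. -/
theorem random_fail (hL : 2 ≤ L) (hD : 2 * L ≤ D + 1) (k : ℕ) (hk : 1 ≤ k) (d : ℕ → ℕ)
    (hd0 : ∀ i, 0 < d i) (hd : ∀ ℓ < L, (∏ i ∈ range ℓ, d i) * k ≤ d ℓ)
    (hM : ∀ ℓ < L, d ℓ ≤ M + 1) (T : ℕ) (hT : T < L * (k - 1) + D)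
    (E : Finset (Fin L → Fin (M + 1)))
    (hK : (shapes L M k).Nonempty) {Ω : Type} [MeasurableSpace Ω] (μ : Measure Ω)
    [IsProbabilityMeasure μ] (R : Ω → Protocol (Nd D L M (N + 1)))
    (hR : ∀ Q T, MeasurableSet {ω | Delivered net (R ω) Q T}) :
    ∃ b : Fin N → Finset (Fin L → Fin (M + 1)), (∀ ν, b ν ∈ shapes L M k) ∧
      μ.real {ω | Delivered net (R ω) ((pts (ext b E)).image (pk D)) T} ≤
        (1 - 1 / ((shapes L M k).card : ℝ)) ^ N := by
  classical
  set K : ℕ := (shapes L M k).card with hKdef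
  have hK0 : 0 < K := Finset.card_pos.2 hK
  set W : Finset (Fin N → Finset (Fin L → Fin (M + 1))) :=
    Fintype.piFinset fun _ : Fin N => shapes L M k with hW
  have hWcard : W.card = K ^ N := by
    rw [hW, Fintype.card_piFinset]
    simp [hKdef]
  have hWne : W.Nonempty := by
    rw [← Finset.card_pos, hWcard]
    exact pow_pos hK0 N
  set S : (Fin N → Finset (Fin L → Fin (M + 1))) → Set Ω := fun b =>
    {ω | Delivered net (R ω) ((pts (ext b E)).image (pk D)) T} with hS
  have h1 : ∑ b ∈ W, μ (S b) ≤ (((K - 1) ^ N : ℕ) : ENNReal) := by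
    calc ∑ b ∈ W, μ (S b) = ∑ b ∈ W, ∫⁻ ω, (S b).indicator 1 ω ∂μ := by
          apply Finset.sum_congr rfl
          intro b _
          rw [lintegral_indicator_one (hR _ _)]
      _ = ∫⁻ ω, ∑ b ∈ W, (S b).indicator 1 ω ∂μ := by
          rw [lintegral_finsetSum]
          intro b _
          exact measurable_one.indicator (hR _ _)
      _ ≤ ∫⁻ _, (((K - 1) ^ N : ℕ) : ENNReal) ∂μ := by
          apply lintegral_mono
          intro ω
          dsimp only
          have h2 : ∑ b ∈ W, (S b).indicator (1 : Ω → ENNReal) ω =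
              (((W.filter fun b => ω ∈ S b).card : ℕ) : ENNReal) := by
            rw [Finset.card_filter]
            push_cast
            apply Finset.sum_congr rfl
            intro b _
            by_cases h : ω ∈ S b <;> simp [h]
          rw [h2]
          exact_mod_cast success_card (R ω) hL hD k hk d hd0 hd hM T hT E
      _ = _ := by simp
  have h2 : ∑ b ∈ W, μ.real (S b) ≤ (((K - 1) ^ N : ℕ) : ℝ) := by
    have h3 : ∑ b ∈ W, μ.real (S b) = (∑ b ∈ W, μ (S b)).toReal := by
      rw [ENNReal.toReal_sum fun b _ => measure_ne_top μ _]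
      rfl
    rw [h3]
    exact ENNReal.toReal_le_of_le_ofReal (by positivity) (by simpa using h1)
  have hKr : (0 : ℝ) < K := by exact_mod_cast hK0
  obtain ⟨b, hb, hle⟩ := Finset.exists_le_of_sum_le hWne (f := fun b => μ.real (S b))
    (g := fun _ => (1 - 1 / (K : ℝ)) ^ N) (by
      refine h2.trans ?_
      rw [Finset.sum_const, hWcard, nsmul_eq_mul]
      push_cast [Nat.cast_sub hK0]
      rw [← mul_pow]
      apply le_of_eq
      congr 1
      field_simp)
  exact ⟨b, fun ν => Fintype.mem_piFinset.1 hb ν, hle⟩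

end

end Pool.Agent.W998.Route
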